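import Pool.Agent.F5S.Stmts

/-!
# Squad F5S, row GEO: geometry of triples of points
-/

open MeasureTheory Filter Topology

namespace Pool.Agent.F5S.H65g

open Pool.Agent.BTL Pool.Agent.F5S

theorem dr_le {u v : ℝ × ℝ} {a b : ℝ} (ha : 0 ≤ a) (hb : 0 ≤ b) (hu : nr u ≤ a ^ 2)
    (hv : nr v ≤ b ^ 2) : |dr u v| ≤ a * b := by
  have h1 : dr u v ^ 2 ≤ nr u * nr v := by
    unfold dr nr
    nlinarith [sq_nonneg (u.1 * v.1 + u.2 * v.2)]
  have h0 : 0 ≤ nr v := by unfold nr; positivity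
  have h2 : nr u * nr v ≤ (a * b) ^ 2 := by
    calc nr u * nr v ≤ a ^ 2 * b ^ 2 := mul_le_mul hu hv h0 (by positivity)
      _ = (a * b) ^ 2 := by ring
  exact abs_le_of_sq_le_sq (h1.trans h2) (mul_nonneg ha hb)

theorem nr_add {u v w : ℝ × ℝ} {a b : ℝ} (ha : 0 ≤ a) (hb : 0 ≤ b) (hu : nr u ≤ a ^ 2)
    (hv : nr v ≤ b ^ 2) (hw : w = u + v) : nr w ≤ (a + b) ^ 2 := by
  have h1 : (u.1 * v.1 + u.2 * v.2) ^ 2 ≤ nr u * nr v := by
    unfold nr
    nlinarith [sq_nonneg (u.1 * v.2 - u.2 * v.1)]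
  have h0 : 0 ≤ nr v := by unfold nr; positivity
  have h2 : nr u * nr v ≤ (a * b) ^ 2 := by
    calc nr u * nr v ≤ a ^ 2 * b ^ 2 := mul_le_mul hu hv h0 (by positivity)
      _ = (a * b) ^ 2 := by ring
  have h3 : |u.1 * v.1 + u.2 * v.2| ≤ a * b :=
    abs_le_of_sq_le_sq (h1.trans h2) (mul_nonneg ha hb)
  have h4 := (abs_le.1 h3).2
  have h5 : nr w = nr u + 2 * (u.1 * v.1 + u.2 * v.2) + nr v := by
    rw [hw]
    unfold nr
    rw [Prod.fst_add, Prod.snd_add]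
    ring
  rw [h5]
  nlinarith

theorem dr_diff {ci cj xi xj : ℝ × ℝ} {s a b : ℝ} (hs : 0 ≤ s) (ha : 0 ≤ a) (hb : 0 ≤ b)
    (h1 : nr (xi - ci) ≤ s ^ 2) (h2 : nr (xj - cj) ≤ s ^ 2) (h3 : nr cj ≤ a ^ 2)
    (h4 : nr xi ≤ b ^ 2) :
    |dr xi xj| ≤ |dr ci cj| + (s * a + b * s) ∧ |dr ci cj| ≤ |dr xi xj| + (s * a + b * s) := by
  have h5 := dr_le hs ha h1 h3
  have h6 := dr_le hb hs h4 h2
  have h7 : dr xi xj = dr ci cj + (dr (xi - ci) cj + dr xi (xj - cj)) := by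
    unfold dr
    rw [Prod.fst_sub, Prod.snd_sub, Prod.fst_sub, Prod.snd_sub]
    ring
  have h8 : |dr (xi - ci) cj + dr xi (xj - cj)| ≤ s * a + b * s :=
    (abs_add_le _ _).trans (add_le_add h5 h6)
  constructor
  · rw [h7]
    exact (abs_add_le _ _).trans (by linarith)
  · have h9 : dr ci cj = dr xi xj + -(dr (xi - ci) cj + dr xi (xj - cj)) := by rw [h7]; ring
    rw [h9]
    refine (abs_add_le _ _).trans ?_
    rw [abs_neg]
    linarith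

theorem nr_comm (u v : ℝ × ℝ) : nr (u - v) = nr (v - u) := by
  unfold nr
  rw [Prod.fst_sub, Prod.snd_sub, Prod.fst_sub, Prod.snd_sub]
  ring

/-- Row GEO. -/
theorem geo : GEOStmt := by
  intro T L K hT hL hK hLK c x hn
  have hT0 : 0 ≤ T := by linarith
  have hK0 : 0 < K := by linarith
  obtain ⟨P, hP⟩ : ∃ P : ℝ, P = T / K := ⟨_, rfl⟩
  have hPK : P * K = T := by rw [hP]; field_simp
  have hP0 : 0 ≤ P := by rw [hP]; positivity
  have hP22 : 22 * P ≤ T := by nlinarith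
  have hLP : 16 * L ≤ P := by
    rw [hP, le_div_iff₀ hK0]
    exact hLK
  have eK : ∀ k : ℝ, k * T ^ 2 / K = k * (P * T) := by
    intro k
    rw [hP]
    ring
  obtain ⟨s, hs⟩ : ∃ s : ℝ, s = 3 / 2 * L := ⟨_, rfl⟩
  have hs0 : 0 ≤ s := by rw [hs]; positivity
  have hsL : 2 * L ^ 2 ≤ s ^ 2 := by
    rw [hs]
    nlinarith [sq_nonneg L]
  obtain ⟨n1, n2, n3⟩ := hn
  have n1 := n1.trans hsL
  have n2 := n2.trans hsL
  have n3 := n3.trans hsL
  have hPT : 0 ≤ P * T := mul_nonneg hP0 hT0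
  -- error term with radius `a`
  have herr : ∀ a b : ℝ, a ≤ 2 * T → b ≤ 2 * T → 0 ≤ a → 0 ≤ b → s * a + b * s < P * T := by
    intro a b ha hb _ _
    have h1 : s * a + b * s ≤ s * (4 * T) := by nlinarith
    have h2 : s * (4 * T) = 6 * (L * T) := by rw [hs]; ring
    have h3 : 16 * L * T ≤ P * T := mul_le_mul_of_nonneg_right hLP hT0
    have h4 : 0 < L * T := mul_pos hL (by linarith)
    linarith
  refine ⟨?_, ?_, ?_, ?_⟩
  · rintro ⟨a1, a2, a3⟩ ⟨d1, d2, d3⟩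
    have b1 : nr c.1 ≤ (T + s) ^ 2 := nr_add (u := x.1) (v := c.1 - x.1) hT0 hs0 a1.le
      (by rw [nr_comm]; exact n1) (by abel)
    have b2 : nr c.2.1 ≤ (T + s) ^ 2 := nr_add (u := x.2.1) (v := c.2.1 - x.2.1) hT0 hs0 a2.le
      (by rw [nr_comm]; exact n2) (by abel)
    have b3 : nr c.2.2 ≤ (T + s) ^ 2 := nr_add (u := x.2.2) (v := c.2.2 - x.2.2) hT0 hs0 a3.le
      (by rw [nr_comm]; exact n3) (by abel)
    have hle : (T + s) ^ 2 ≤ (T + 2 * L) ^ 2 :=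
      pow_le_pow_left₀ (by positivity) (by rw [hs]; linarith) 2
    refine ⟨⟨b1.trans hle, b2.trans hle, b3.trans hle⟩, ?_⟩
    have hTs : T + s ≤ 2 * T := by rw [hs]; linarith
    have hE := herr (T + s) T hTs (by linarith) (by positivity) hT0
    have c1 := (dr_diff hs0 (by positivity : 0 ≤ T + s) hT0 n1 n2 b2 a1.le).1
    have c2 := (dr_diff hs0 (by positivity : 0 ≤ T + s) hT0 n1 n3 b3 a1.le).1
    have c3 := (dr_diff hs0 (by positivity : 0 ≤ T + s) hT0 n2 n3 b3 a2.le).1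
    rw [eK] at d1 d2 d3
    refine ⟨?_, ?_, ?_⟩
    · rw [eK]; linarith
    · rw [eK]; linarith
    · rw [eK]; linarith
  · rintro ⟨a1, a2, a3⟩ ⟨d1, d2, d3⟩
    have hTL : 0 ≤ T - 2 * L := by linarith
    have b1 : nr x.1 ≤ (T - 2 * L + s) ^ 2 :=
      nr_add (u := c.1) (v := x.1 - c.1) hTL hs0 a1 n1 (by abel)
    have b2 : nr x.2.1 ≤ (T - 2 * L + s) ^ 2 :=
      nr_add (u := c.2.1) (v := x.2.1 - c.2.1) hTL hs0 a2 n2 (by abel)
    have b3 : nr x.2.2 ≤ (T - 2 * L + s) ^ 2 :=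
      nr_add (u := c.2.2) (v := x.2.2 - c.2.2) hTL hs0 a3 n3 (by abel)
    have hlt : (T - 2 * L + s) ^ 2 < T ^ 2 :=
      pow_lt_pow_left₀ (by rw [hs]; linarith) (by positivity) two_ne_zero
    have hTs : T - 2 * L + s ≤ 2 * T := by rw [hs]; linarith
    have hTs0 : 0 ≤ T - 2 * L + s := by positivity
    have hE := herr (T - 2 * L) (T - 2 * L + s) (by linarith) hTs hTL hTs0
    have c1 := (dr_diff hs0 hTL hTs0 n1 n2 a2 b1).2
    have c2 := (dr_diff hs0 hTL hTs0 n1 n3 a3 b1).2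
    have c3 := (dr_diff hs0 hTL hTs0 n2 n3 a3 b2).2
    have e1 : T ^ 2 / K = P * T := by rw [hP]; ring
    rw [e1] at d1 d2 d3
    refine ⟨⟨lt_of_le_of_lt b1 hlt, lt_of_le_of_lt b2 hlt, lt_of_le_of_lt b3 hlt⟩, ?_, ?_, ?_⟩
    · linarith
    · linarith
    · linarith
  · rintro ⟨a1, a2, a3⟩ ⟨d1, d2, d3⟩
    rw [← hP] at a1 a2 a3
    have hR0 : 0 ≤ T - 4 * L - P := by linarith
    have b1 : nr c.1 ≤ (T - 4 * L - P + s) ^ 2 := nr_add (u := x.1) (v := c.1 - x.1) hR0 hs0 a1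
      (by rw [nr_comm]; exact n1) (by abel)
    have b2 : nr c.2.1 ≤ (T - 4 * L - P + s) ^ 2 := nr_add (u := x.2.1) (v := c.2.1 - x.2.1) hR0 hs0
      a2 (by rw [nr_comm]; exact n2) (by abel)
    have b3 : nr c.2.2 ≤ (T - 4 * L - P + s) ^ 2 := nr_add (u := x.2.2) (v := c.2.2 - x.2.2) hR0 hs0
      a3 (by rw [nr_comm]; exact n3) (by abel)
    have hle : (T - 4 * L - P + s) ^ 2 ≤ (T - 2 * L - T / K) ^ 2 := by
      rw [← hP]
      exact pow_le_pow_left₀ (by positivity) (by rw [hs]; linarith) 2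
    refine ⟨⟨b1.trans hle, b2.trans hle, b3.trans hle⟩, ?_⟩
    have hTs : T - 4 * L - P + s ≤ 2 * T := by rw [hs]; linarith
    have hTs0 : 0 ≤ T - 4 * L - P + s := by positivity
    have hE := herr (T - 4 * L - P + s) (T - 4 * L - P) hTs (by linarith) hTs0 hR0
    have c1 := (dr_diff hs0 hTs0 hR0 n1 n2 b2 a1).1
    have c2 := (dr_diff hs0 hTs0 hR0 n1 n3 b3 a1).1
    have c3 := (dr_diff hs0 hTs0 hR0 n2 n3 b3 a2).1
    rw [eK] at d1 d2 d3
    refine ⟨?_, ?_, ?_⟩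
    · rw [eK]; linarith
    · rw [eK]; linarith
    · rw [eK]; linarith
  · rintro ⟨a1, a2, a3⟩
    rw [← hP] at a1 a2 a3
    have hR0 : 0 ≤ T + 2 * L + P := by linarith
    have b1 : nr x.1 ≤ (T + 2 * L + P + s) ^ 2 :=
      nr_add (u := c.1) (v := x.1 - c.1) hR0 hs0 a1 n1 (by abel)
    have b2 : nr x.2.1 ≤ (T + 2 * L + P + s) ^ 2 :=
      nr_add (u := c.2.1) (v := x.2.1 - c.2.1) hR0 hs0 a2 n2 (by abel)
    have b3 : nr x.2.2 ≤ (T + 2 * L + P + s) ^ 2 :=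
      nr_add (u := c.2.2) (v := x.2.2 - c.2.2) hR0 hs0 a3 n3 (by abel)
    have hlt : (T + 2 * L + P + s) ^ 2 < (T + 4 * L + T / K) ^ 2 := by
      rw [← hP]
      exact pow_lt_pow_left₀ (by rw [hs]; linarith) (by positivity) two_ne_zero
    exact ⟨lt_of_le_of_lt b1 hlt, lt_of_le_of_lt b2 hlt, lt_of_le_of_lt b3 hlt⟩

end Pool.Agent.F5S.H65g
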