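import Pool.Agent.F5S.Stmts

/-!
# Squad F5S, row ILO: lower bound of the weighted integral
-/

open MeasureTheory Filter Topology

namespace Pool.Agent.F5S.H65

open Pool.Agent.BTL Pool.Agent.F5S

theorem qf_cont (A : ℝ × ℝ × ℝ) : Continuous (qf A) := by
  unfold qf
  fun_prop

theorem nr_cont : Continuous nr := by
  unfold nr
  fun_prop

theorem dr_cont : Continuous (fun z : (ℝ × ℝ) × (ℝ × ℝ) => dr z.1 z.2) := by
  unfold dr
  fun_prop

theorem difr_cont (A : ℝ × ℝ × ℝ) : Continuous (difr A) := by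
  unfold difr
  have := qf_cont A
  fun_prop

/-- the ball of triples is open -/
theorem nlt_open (T : ℝ) : IsOpen {x : R6 | nlt T x} := by
  have h := nr_cont
  have e : {x : R6 | nlt T x} = {x : R6 | nr x.1 < T ^ 2} ∩ ({x : R6 | nr x.2.1 < T ^ 2} ∩
      {x : R6 | nr x.2.2 < T ^ 2}) := by
    ext x
    exact Iff.rfl
  rw [e]
  refine IsOpen.inter ?_ (IsOpen.inter ?_ ?_)
  · exact isOpen_lt (by fun_prop) continuous_const
  · exact isOpen_lt (by fun_prop) continuous_const
  · exact isOpen_lt (by fun_prop) continuous_const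

theorem nr_norm {T : ℝ} (hT : 0 ≤ T) {x : ℝ × ℝ} (h : nr x < T ^ 2) : ‖x‖ ≤ T := by
  unfold nr at h
  rw [Prod.norm_def, Real.norm_eq_abs, Real.norm_eq_abs]
  refine max_le ?_ ?_
  · exact abs_le_of_sq_le_sq' (by nlinarith [sq_nonneg x.2]) hT |> abs_le.2
  · exact abs_le_of_sq_le_sq' (by nlinarith [sq_nonneg x.1]) hT |> abs_le.2

theorem nlt_sub {T : ℝ} (hT : 0 ≤ T) : {x : R6 | nlt T x} ⊆ Metric.closedBall 0 T := by
  intro x hx
  obtain ⟨h1, h2, h3⟩ := hx
  rw [mem_closedBall_zero_iff, Prod.norm_def, Prod.norm_def]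
  exact max_le (nr_norm hT h1) (max_le (nr_norm hT h2) (nr_norm hT h3))

theorem nlt_fin {T : ℝ} (hT : 0 ≤ T) : volume {x : R6 | nlt T x} < ⊤ :=
  lt_of_le_of_lt (measure_mono (nlt_sub hT)) (isCompact_closedBall 0 T).measure_lt_top

/-- the set of triples with large determinants is closed -/
theorem dge_meas (D : ℝ) : MeasurableSet {x : R6 | dge D x} := by
  have h := dr_cont
  have e : {x : R6 | dge D x} = {x : R6 | D ≤ |dr x.1 x.2.1|} ∩ ({x : R6 | D ≤ |dr x.1 x.2.2|} ∩
      {x : R6 | D ≤ |dr x.2.1 x.2.2|}) := by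
    ext x
    exact Iff.rfl
  rw [e]
  have h1 : Continuous (fun x : R6 => |dr x.1 x.2.1|) := by unfold dr; fun_prop
  have h2 : Continuous (fun x : R6 => |dr x.1 x.2.2|) := by unfold dr; fun_prop
  have h3 : Continuous (fun x : R6 => |dr x.2.1 x.2.2|) := by unfold dr; fun_prop
  refine MeasurableSet.inter ?_ (MeasurableSet.inter ?_ ?_)
  · exact (isClosed_le continuous_const h1).measurableSet
  · exact (isClosed_le continuous_const h2).measurableSet
  · exact (isClosed_le continuous_const h3).measurableSet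

theorem ilo (hKKF : KKFStmt) (hWBF : WBFStmt) (hGEO : GEOStmt) (hADV : ADVStmt) : ILOStmt := by
  intro T L K hT hL hK hLK e he p A
  obtain ⟨hk1, hk2, hk3, hk4⟩ := hKKF e he
  obtain ⟨⟨hc1, hc2⟩, hp01, hm01, hp3, hm3, hp1, hm1⟩ := hADV T L K hT hL hK hLK
  obtain ⟨hWm, hW01, hW1, hWne⟩ := hWBF L (Wm T L K) hL hc2.measurable hm01
  have hG := hGEO T L K hT hL hK hLK
  obtain ⟨f, hf⟩ : ∃ f : R6 → ℝ, f = fun x => kk e (difr A x - p) := ⟨_, rfl⟩
  have hfx : ∀ x, f x = kk e (difr A x - p) := fun x => by rw [hf]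
  have hf0 : ∀ x, 0 ≤ f x := fun x => by rw [hfx]; exact (hk1 _).1
  have hfe : ∀ x, f x ≤ e := fun x => by rw [hfx]; exact (hk1 _).2
  have hfc : Continuous f := by
    rw [hf]
    exact hk2.comp ((difr_cont A).sub continuous_const)
  have hT0 : 0 ≤ T := by linarith
  have hK0 : 0 < K := by linarith
  -- the radius
  obtain ⟨R, hR⟩ : ∃ R : ℝ, R = T - 4 * L - T / K := ⟨_, rfl⟩
  have hTK : 0 ≤ T / K := by positivity
  have hTK2 : T / K ≤ T / 22 := div_le_div_of_nonneg_left hT0 (by norm_num) hK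
  have hL2 : 4 * L ≤ T / 88 := by
    have h1 : 16 * L * 22 ≤ 16 * L * K := mul_le_mul_of_nonneg_left hK (by positivity)
    linarith
  have hR0 : 0 ≤ R := by rw [hR]; linarith
  have hRT : R ≤ T := by rw [hR]; linarith
  -- the sets
  have hmT : MeasurableSet {x : R6 | nlt T x} := (nlt_open T).measurableSet
  have hmR : MeasurableSet {x : R6 | nlt R x} := (nlt_open R).measurableSet
  have hmB : MeasurableSet {x : R6 | nlt T x ∧ ¬ dge (3 / K * T ^ 2) x} :=
    hmT.inter (dge_meas _).compl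
  have hnlt : ∀ x : R6, nlt R x → nlt T x := by
    intro x hx
    have h1 : R ^ 2 ≤ T ^ 2 := pow_le_pow_left₀ hR0 hRT 2
    exact ⟨lt_of_lt_of_le hx.1 h1, lt_of_lt_of_le hx.2.1 h1, lt_of_lt_of_le hx.2.2 h1⟩
  have hfT : IntegrableOn f {x : R6 | nlt T x} := by
    have h1 : IntegrableOn (fun _ : R6 => e) {x : R6 | nlt T x} :=
      integrableOn_const (nlt_fin hT0).ne
    refine Integrable.mono' h1 hfc.aestronglyMeasurable ?_
    filter_upwards with x
    rw [Real.norm_eq_abs, abs_of_nonneg (hf0 x)]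
    exact hfe x
  have hfR : IntegrableOn f {x : R6 | nlt R x} := hfT.mono_set hnlt
  have hfB : IntegrableOn f {x : R6 | nlt T x ∧ ¬ dge (3 / K * T ^ 2) x} :=
    hfT.mono_set fun x hx => hx.1
  have hWT : ∀ x, Wb L (Wm T L K) x ≠ 0 → nlt T x := by
    intro x hx
    obtain ⟨c, hc, hn⟩ := hWne x hx
    have h1 := hm3 c hc
    exact ((hG c x hn).2.1 h1.2.1 h1.2.2).1
  have hWf : Integrable (fun x => Wb L (Wm T L K) x * f x) := by
    have h1 : Integrable (Set.indicator {x : R6 | nlt T x} f) :=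
      (integrable_indicator_iff hmT).2 hfT
    refine Integrable.mono' h1 (hWm.mul hfc.measurable).aestronglyMeasurable ?_
    filter_upwards with x
    rw [Real.norm_eq_abs, abs_of_nonneg (mul_nonneg (hW01 x).1 (hf0 x))]
    by_cases h : nlt T x
    · rw [Set.indicator_of_mem (show x ∈ {x : R6 | nlt T x} from h)]
      exact mul_le_of_le_one_left (hf0 x) (hW01 x).2
    · rw [Set.indicator_of_notMem (show x ∉ {x : R6 | nlt T x} from h)]
      have h2 : Wb L (Wm T L K) x = 0 := by
        by_contra h3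
        exact h (hWT x h3)
      rw [h2, zero_mul]
  have hI1 : BI (T - 4 * L - T / K) e p A = ∫ x, Set.indicator {x : R6 | nlt R x} f x := by
    rw [integral_indicator hmR]
    unfold BI
    rw [hf, hR]
  have hI2 : BB T (3 / K) e p A =
      ∫ x, Set.indicator {x : R6 | nlt T x ∧ ¬ dge (3 / K * T ^ 2) x} f x := by
    rw [integral_indicator hmB]
    unfold BB
    rw [hf]
  have hI3 : IW L e (Wm T L K) p A = ∫ x, Wb L (Wm T L K) x * f x := by
    unfold IW
    rw [hf]
  rw [hI1, hI2, hI3, ← integral_sub ((integrable_indicator_iff hmR).2 hfR)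
    ((integrable_indicator_iff hmB).2 hfB)]
  refine integral_mono (((integrable_indicator_iff hmR).2 hfR).sub
    ((integrable_indicator_iff hmB).2 hfB)) hWf ?_
  intro x
  change Set.indicator {x : R6 | nlt R x} f x -
    Set.indicator {x : R6 | nlt T x ∧ ¬ dge (3 / K * T ^ 2) x} f x ≤ Wb L (Wm T L K) x * f x
  have hW0 : 0 ≤ Wb L (Wm T L K) x * f x := mul_nonneg (hW01 x).1 (hf0 x)
  have hi0 : 0 ≤ Set.indicator {x : R6 | nlt T x ∧ ¬ dge (3 / K * T ^ 2) x} f x :=
    Set.indicator_nonneg (fun y _ => hf0 y) x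
  by_cases h : nlt R x
  · rw [Set.indicator_of_mem (show x ∈ {x : R6 | nlt R x} from h)]
    by_cases h2 : dge (3 / K * T ^ 2) x
    · have h3 : Wb L (Wm T L K) x = 1 := by
        apply hW1
        intro c hc
        have h4 : nle (T - 4 * L - T / K) x := by
          rw [← hR]
          exact ⟨h.1.le, h.2.1.le, h.2.2.le⟩
        have h5 : dge (3 * T ^ 2 / K) x := by
          have e1 : 3 * T ^ 2 / K = 3 / K * T ^ 2 := by ring
          rw [e1]
          exact h2
        have h6 := (hG c x hc).2.2.1 h4 h5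
        exact hm1 c h6.1 h6.2
      rw [h3, one_mul]
      linarith
    · rw [Set.indicator_of_mem
        (show x ∈ {x : R6 | nlt T x ∧ ¬ dge (3 / K * T ^ 2) x} from ⟨hnlt x h, h2⟩)]
      linarith
  · rw [Set.indicator_of_notMem (show x ∉ {x : R6 | nlt R x} from h)]
    linarith

end Pool.Agent.F5S.H65
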