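import Pool.Agent.F5S.Stmts

/-!
# Squad F5S, row IWL: limits of the weighted integrals
-/

open MeasureTheory Filter Topology

namespace Pool.Agent.F5S.H65w

open Pool.Agent.BTL Pool.Agent.F5S

theorem lim_r {e : ℝ} {p : ℝ × ℝ} {A : ℝ × ℝ × ℝ} {l : ℝ}
    (h : Tendsto (fun T : ℝ => BI T e p A / T ^ 2) atTop (𝓝 l)) {R : ℝ → ℝ}
    (hR : Tendsto (fun T => R T / T) atTop (𝓝 1)) :
    Tendsto (fun T : ℝ => BI (R T) e p A / T ^ 2) atTop (𝓝 l) := by
  have h1 : Tendsto R atTop atTop := by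
    have h2 : Tendsto (fun T : ℝ => T * (R T / T)) atTop atTop :=
      Filter.Tendsto.atTop_mul_pos one_pos tendsto_id hR
    refine h2.congr' ?_
    filter_upwards [eventually_gt_atTop (0 : ℝ)] with T hT
    field_simp
  have h3 : Tendsto (fun T => BI (R T) e p A / (R T) ^ 2) atTop (𝓝 l) := h.comp h1
  have h4 : Tendsto (fun T => BI (R T) e p A / (R T) ^ 2 * (R T / T) ^ 2) atTop
      (𝓝 (l * 1 ^ 2)) := h3.mul (hR.pow 2)
  rw [one_pow, mul_one] at h4
  refine h4.congr' ?_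
  filter_upwards [eventually_gt_atTop (0 : ℝ), h1.eventually_gt_atTop 0] with T hT hRT
  have := hRT.ne'
  field_simp

theorem iwl (hIUP : IUPStmt) (hILO : ILOStmt) (hMNT : MNTStmt) (hBBD : BBDStmt) : IWLStmt := by
  intro M hM A hA lam del1 hlam hdel hld e p he ε hε
  have hmnt := hMNT M hM A hA e p he
  obtain ⟨C, hC, hbb⟩ := hBBD M e p hM he
  -- elementary limits
  have hLim : Tendsto (fun T : ℝ => T ^ lam / T) atTop (𝓝 0) := by
    have h1 : Tendsto (fun T : ℝ => T ^ (-(1 - lam))) atTop (𝓝 0) :=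
      tendsto_rpow_neg_atTop (by linarith)
    refine h1.congr' ?_
    filter_upwards [eventually_gt_atTop (0 : ℝ)] with T hT
    rw [show -(1 - lam) = lam - 1 by ring, Real.rpow_sub_one hT.ne']
  have hKt : Tendsto (fun T : ℝ => T ^ (del1 / 2)) atTop atTop := tendsto_rpow_atTop (by linarith)
  have hKi : Tendsto (fun T : ℝ => (T ^ (del1 / 2))⁻¹) atTop (𝓝 0) := hKt.inv_tendsto_atTop
  have hLK : Tendsto (fun T : ℝ => 16 * T ^ lam * T ^ (del1 / 2) / T) atTop (𝓝 0) := by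
    have h1 : Tendsto (fun T : ℝ => 16 * T ^ (-(1 - (lam + del1 / 2)))) atTop (𝓝 (16 * 0)) :=
      (tendsto_rpow_neg_atTop (by linarith)).const_mul 16
    rw [mul_zero] at h1
    refine h1.congr' ?_
    filter_upwards [eventually_gt_atTop (0 : ℝ)] with T hT
    rw [show -(1 - (lam + del1 / 2)) = lam + del1 / 2 - 1 by ring, Real.rpow_sub_one hT.ne',
      Real.rpow_add hT]
    ring
  have hbig : ∀ᶠ T : ℝ in atTop, big lam del1 T := by
    filter_upwards [eventually_gt_atTop (0 : ℝ), hLK.eventually (gt_mem_nhds one_pos),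
      hKt.eventually_ge_atTop 22] with T hT h1 h2
    refine ⟨?_, h2⟩
    rw [div_lt_one hT] at h1
    exact h1.le
  -- the upper radius
  have hU : Tendsto (fun T : ℝ => (T + 4 * T ^ lam + T / T ^ (del1 / 2)) / T) atTop (𝓝 1) := by
    have h1 : Tendsto (fun T : ℝ => 1 + 4 * (T ^ lam / T) + (T ^ (del1 / 2))⁻¹) atTop
        (𝓝 (1 + 4 * 0 + 0)) := (tendsto_const_nhds.add (hLim.const_mul 4)).add hKi
    rw [mul_zero, add_zero, add_zero] at h1
    refine h1.congr' ?_
    filter_upwards [eventually_gt_atTop (0 : ℝ)] with T hT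
    have h2 : T ^ (del1 / 2) ≠ 0 := (Real.rpow_pos_of_pos hT _).ne'
    field_simp
  have hD : Tendsto (fun T : ℝ => (T - 4 * T ^ lam - T / T ^ (del1 / 2)) / T) atTop (𝓝 1) := by
    have h1 : Tendsto (fun T : ℝ => 1 - 4 * (T ^ lam / T) - (T ^ (del1 / 2))⁻¹) atTop
        (𝓝 (1 - 4 * 0 - 0)) := (tendsto_const_nhds.sub (hLim.const_mul 4)).sub hKi
    rw [mul_zero, sub_zero, sub_zero] at h1
    refine h1.congr' ?_
    filter_upwards [eventually_gt_atTop (0 : ℝ)] with T hT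
    have h2 : T ^ (del1 / 2) ≠ 0 := (Real.rpow_pos_of_pos hT _).ne'
    field_simp
  have hU2 := lim_r hmnt hU
  have hD2 := lim_r hmnt hD
  -- the small determinants
  have hB : Tendsto (fun T : ℝ => C * (Real.sqrt (3 / T ^ (del1 / 2)) + 1 / T ^ 2)) atTop
      (𝓝 0) := by
    have h1 : Tendsto (fun T : ℝ => 3 / T ^ (del1 / 2)) atTop (𝓝 0) := by
      have h2 := hKi.const_mul 3
      rw [mul_zero] at h2
      refine h2.congr fun T => ?_
      exact (div_eq_mul_inv 3 _).symm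
    have h3 : Tendsto (fun T : ℝ => Real.sqrt (3 / T ^ (del1 / 2))) atTop (𝓝 0) := by
      have h4 := (Real.continuous_sqrt.tendsto 0).comp h1
      rw [Real.sqrt_zero] at h4
      exact h4
    have h5 : Tendsto (fun T : ℝ => 1 / T ^ 2) atTop (𝓝 0) := by
      have h6 : Tendsto (fun T : ℝ => (T ^ 2)⁻¹) atTop (𝓝 0) :=
        (tendsto_pow_atTop two_ne_zero).inv_tendsto_atTop
      refine h6.congr fun T => ?_
      rw [one_div]
    have h7 := (h3.add h5).const_mul C
    rw [add_zero, mul_zero] at h7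
    exact h7
  have hu : ∀ᶠ T : ℝ in atTop, BI (T + 4 * T ^ lam + T / T ^ (del1 / 2)) e p A / T ^ 2 <
      e ^ 3 * cQ A + ε := hU2.eventually (gt_mem_nhds (by linarith))
  have hd : ∀ᶠ T : ℝ in atTop, e ^ 3 * cQ A - ε / 2 <
      BI (T - 4 * T ^ lam - T / T ^ (del1 / 2)) e p A / T ^ 2 :=
    hD2.eventually (lt_mem_nhds (by linarith))
  have hb : ∀ᶠ T : ℝ in atTop, C * (Real.sqrt (3 / T ^ (del1 / 2)) + 1 / T ^ 2) < ε / 2 :=
    hB.eventually (gt_mem_nhds (by linarith))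
  filter_upwards [eventually_ge_atTop (1 : ℝ), hbig, hu, hd, hb] with T hT h1 h2 h3 h4
  have hT0 : 0 < T := by linarith
  have hT2 : 0 < T ^ 2 := by positivity
  have hL0 : 0 < T ^ lam := Real.rpow_pos_of_pos hT0 _
  have hb2 := hbb A hA T (3 / T ^ (del1 / 2)) hT (by
    have := h1.2
    positivity) (by
    have := h1.2
    rw [div_le_one (by linarith)]
    linarith)
  refine ⟨h1, ?_, ?_⟩
  · have h5 := hIUP T (T ^ lam) (T ^ (del1 / 2)) hT hL0 h1.2 h1.1 e he p A
    exact (div_le_div_of_nonneg_right h5 hT2.le).trans h2.le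
  · have h5 := hILO T (T ^ lam) (T ^ (del1 / 2)) hT hL0 h1.2 h1.1 e he p A
    have h6 : BB T (3 / T ^ (del1 / 2)) e p A / T ^ 2 ≤
        C * (Real.sqrt (3 / T ^ (del1 / 2)) + 1 / T ^ 2) := by
      rw [div_le_iff₀ hT2]
      refine hb2.2.trans (le_of_eq ?_)
      field_simp
    have h7 := div_le_div_of_nonneg_right h5 hT2.le
    rw [sub_div] at h7
    linarith

end Pool.Agent.F5S.H65w
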